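import Pool.Agent.H2.Perc2

set_option autoImplicit false

namespace Pool.Agent.Results.MP_2e2eba_pr.Chaos

open Filter Topology Pool.Agent.H2.Perc

theorem result (d n : ℕ) (v : Fin n → Fin d → ℤ) :
    Tendsto (fun T : ℕ => critChaos v T) atTop (𝓝 (crit v)) :=
  chaos_tendsto v

end Pool.Agent.Results.MP_2e2eba_pr.Chaos
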